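import Mathlib
import Pool.Agent.W761.CB.Stms

/-!
Project CB (helper761): Poincare inequality from the kinetic energy.
-/

set_option autoImplicit false

namespace Pool.Agent.W753.CB

open Pool.Agent.W761.CB
open MeasureTheory Filter Topology
open scoped ENNReal

section

variable {n : ℕ} {L : ℝ} [Fact (0 < L)]

instance : Fact ((2 : ℝ≥0∞) ≠ ⊤) := ⟨by simp⟩

/-- the size of the difference of a translate -/
noncomputable def ph (F : Lp ℂ 2 (volume : Measure (Tor n L))) (h : Tor n L) : ℝ≥0∞ :=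
  edist (DomAddAct.mk h +ᵥ F) F

lemma ph_zero (F : Lp ℂ 2 (volume : Measure (Tor n L))) : ph F 0 = 0 := by
  unfold ph
  rw [DomAddAct.mk_zero, zero_vadd, edist_self]

lemma ph_add (F : Lp ℂ 2 (volume : Measure (Tor n L))) (h h' : Tor n L) :
    ph F (h + h') ≤ ph F h + ph F h' := by
  unfold ph
  rw [add_comm h h', DomAddAct.mk_add, add_vadd, add_comm (edist _ _)]
  refine (edist_triangle _ (DomAddAct.mk h +ᵥ F) _).trans ?_
  rw [edist_vadd_left]

lemma ph_neg (F : Lp ℂ 2 (volume : Measure (Tor n L))) (h : Tor n L) :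
    ph F (-h) = ph F h := by
  unfold ph
  rw [← edist_vadd_left (DomAddAct.mk h), ← add_vadd, ← DomAddAct.mk_add, neg_add_cancel,
    DomAddAct.mk_zero, zero_vadd, edist_comm]

lemma ph_nsmul (F : Lp ℂ 2 (volume : Measure (Tor n L))) (h : Tor n L) (j : ℕ) :
    ph F (j • h) ≤ j * ph F h := by
  induction j with
  | zero => simp [ph_zero]
  | succ j ih =>
    rw [succ_nsmul]
    refine (ph_add F _ _).trans ?_
    push_cast
    rw [add_mul, one_mul]
    gcongr

lemma ph_sum (F : Lp ℂ 2 (volume : Measure (Tor n L))) {ι : Type} (s : Finset ι)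
    (h : ι → Tor n L) : ph F (∑ i ∈ s, h i) ≤ ∑ i ∈ s, ph F (h i) := by
  classical
  induction s using Finset.induction_on with
  | empty => simp [ph_zero]
  | insert a s ha ih =>
    rw [Finset.sum_insert ha, Finset.sum_insert ha]
    exact (ph_add F _ _).trans (by gcongr)

lemma ph_tendsto (F : Lp ℂ 2 (volume : Measure (Tor n L))) {t : ℕ → Tor n L}
    (ht : Tendsto t atTop (𝓝 0)) : Tendsto (fun k => ph F (t k)) atTop (𝓝 0) := by
  have h1 : Continuous fun h : Tor n L => ph F h := by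
    unfold ph
    have : Continuous fun h : Tor n L => DomAddAct.mk h +ᵥ F := by
      have : ContinuousVAdd (Tor n L)ᵈᵃᵃ (Lp ℂ 2 (volume : Measure (Tor n L))) :=
        MeasureTheory.Lp.instContinuousVAddDomAddAct
      have h2 : Continuous fun h : (Tor n L)ᵈᵃᵃ => h +ᵥ F := continuous_id.vadd continuous_const
      exact h2.comp DomAddAct.continuous_mk
    exact this.edist continuous_const
  have := (h1.tendsto 0).comp ht
  rwa [ph_zero] at this

lemma ph_sq (f : Tor n L → ℂ) (hf : MemLp f 2 (volume : Measure (Tor n L))) (h : Tor n L) :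
    ph (hf.toLp f) h ^ 2 = d1 f h := by
  unfold ph
  rw [DomAddAct.mk_vadd_toLp, Lp.edist_toLp_toLp]
  have h1 := eLpNorm_nnreal_pow_eq_lintegral (f := (fun x => f (h +ᵥ x)) - f) (p := 2)
    (μ := (volume : Measure (Tor n L))) (by norm_num)
  have h2 : ((2 : NNReal) : ℝ) = ((2 : ℕ) : ℝ) := by norm_num
  rw [h2] at h1
  simp only [ENNReal.rpow_natCast] at h1
  have h3 : ((2 : NNReal) : ℝ≥0∞) = 2 := by norm_num
  rw [h3] at h1
  rw [h1]
  unfold d1
  refine lintegral_congr fun x => ?_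
  simp only [Pi.sub_apply, vadd_eq_add]
  rw [add_comm]

omit [Fact (0 < L)] in
lemma ec_nsmul (c : Fin n) (h : ℝ) (j : ℕ) : j • ec L c h = ec L c (j * h) := by
  unfold ec pr
  funext d
  simp only [Pi.smul_apply, Pi.single_apply]
  split_ifs with h1
  · rw [← AddCircle.coe_nsmul, nsmul_eq_mul]
  · simp

omit [Fact (0 < L)] in
lemma ec_neg (c : Fin n) (h : ℝ) : -ec L c h = ec L c (-h) := by
  unfold ec pr
  funext d
  simp only [Pi.neg_apply, Pi.single_apply]
  split_ifs with h1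
  · rw [← AddCircle.coe_neg]
  · simp

omit [Fact (0 < L)] in
lemma ec_add (c : Fin n) (h h' : ℝ) : ec L c (h + h') = ec L c h + ec L c h' := by
  unfold ec pr
  funext d
  simp only [Pi.add_apply, Pi.single_apply]
  split_ifs with h1
  · rw [← AddCircle.coe_add]
  · simp

omit [Fact (0 < L)] in
lemma pr_eq_sum (z : Fin n → ℝ) : pr L z = ∑ c, ec L c (z c) := by
  funext d
  rw [Finset.sum_apply, Finset.sum_eq_single d]
  · simp [ec, pr]
  · intro c _ hc
    simp [ec, pr, hc.symm]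
  · simp

omit [Fact (0 < L)] in
lemma ec_tendsto (c : Fin n) {t : ℕ → ℝ} (ht : Tendsto t atTop (𝓝 0)) :
    Tendsto (fun k => ec L c (t k)) atTop (𝓝 0) := by
  rw [tendsto_pi_nhds]
  intro d
  have h1 : ∀ k, ec L c (t k) d = (((Pi.single c (t k) : Fin n → ℝ) d : ℝ) : AddCircle L) :=
    fun k => rfl
  simp only [h1]
  have h2 : Tendsto (fun k => (Pi.single c (t k) : Fin n → ℝ) d) atTop (𝓝 0) := by
    simp only [Pi.single_apply]
    split_ifs
    · exact ht
    · exact tendsto_const_nhds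
  have h3 : Continuous fun x : ℝ => (x : AddCircle L) := AddCircle.continuous_mk' L
  have := (h3.tendsto 0).comp h2
  rw [QuotientAddGroup.mk_zero] at this
  exact this

/-- the kinetic energy in one direction -/
noncomputable def kc (f : Tor n L → ℂ) (c : Fin n) : ℝ≥0∞ :=
  ⨆ k : ℕ, 4 ^ k * d1 f (ec L c ((2 : ℝ)⁻¹ ^ k))

lemma ph_dyadic (f : Tor n L → ℂ) (hf : MemLp f 2 (volume : Measure (Tor n L))) (c : Fin n)
    (k : ℕ) : ph (hf.toLp f) (ec L c ((2 : ℝ)⁻¹ ^ k)) ≤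
      ENNReal.ofReal ((2 : ℝ)⁻¹ ^ k) * (kc f c) ^ (1 / 2 : ℝ) := by
  have h1 : (2 ^ k * ph (hf.toLp f) (ec L c ((2 : ℝ)⁻¹ ^ k))) ^ 2 ≤ kc f c := by
    rw [mul_pow, ph_sq, ← pow_mul, mul_comm k 2, pow_mul, show (2 : ℝ≥0∞) ^ 2 = 4 by norm_num]
    exact le_iSup (fun k : ℕ => 4 ^ k * d1 f (ec L c ((2 : ℝ)⁻¹ ^ k))) k
  have h2 : 2 ^ k * ph (hf.toLp f) (ec L c ((2 : ℝ)⁻¹ ^ k)) ≤ (kc f c) ^ (1 / 2 : ℝ) := by
    have := ENNReal.rpow_le_rpow h1 (show (0 : ℝ) ≤ 1 / 2 by norm_num)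
    rwa [← ENNReal.rpow_natCast, ← ENNReal.rpow_mul, show ((2 : ℕ) : ℝ) * (1 / 2) = 1 by norm_num,
      ENNReal.rpow_one] at this
  have h3 : ENNReal.ofReal ((2 : ℝ)⁻¹ ^ k) = (2 ^ k : ℝ≥0∞)⁻¹ := by
    rw [inv_pow, ENNReal.ofReal_inv_of_pos (by positivity), ENNReal.ofReal_pow (by norm_num)]
    norm_num
  rw [h3]
  calc ph (hf.toLp f) (ec L c ((2 : ℝ)⁻¹ ^ k))
      = (2 ^ k : ℝ≥0∞)⁻¹ * (2 ^ k * ph (hf.toLp f) (ec L c ((2 : ℝ)⁻¹ ^ k))) := by
        rw [← mul_assoc, ENNReal.inv_mul_cancel (by positivity) (by simp), one_mul]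
    _ ≤ _ := by gcongr

lemma ph_line0 (f : Tor n L → ℂ) (hf : MemLp f 2 (volume : Measure (Tor n L))) (c : Fin n)
    (t : ℝ) (ht : 0 ≤ t) : ph (hf.toLp f) (ec L c t) ≤
      ENNReal.ofReal t * (kc f c) ^ (1 / 2 : ℝ) := by
  set j : ℕ → ℕ := fun k => ⌊t * 2 ^ k⌋₊ with hj
  set e : ℕ → ℝ := fun k => t - j k * (2 : ℝ)⁻¹ ^ k with he
  have hp : ∀ k : ℕ, (2 : ℝ)⁻¹ ^ k * 2 ^ k = 1 := by
    intro k; rw [← mul_pow]; norm_num
  have hjt : ∀ k, (j k : ℝ) * (2 : ℝ)⁻¹ ^ k ≤ t := by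
    intro k
    have := Nat.floor_le (show 0 ≤ t * 2 ^ k by positivity)
    calc (j k : ℝ) * (2 : ℝ)⁻¹ ^ k ≤ (t * 2 ^ k) * (2 : ℝ)⁻¹ ^ k := by gcongr
      _ = t * ((2 : ℝ)⁻¹ ^ k * 2 ^ k) := by ring
      _ = t := by rw [hp, mul_one]
  have he0 : Tendsto e atTop (𝓝 0) := by
    have h1 : Tendsto (fun k : ℕ => (2 : ℝ)⁻¹ ^ k) atTop (𝓝 0) :=
      tendsto_pow_atTop_nhds_zero_of_lt_one (by norm_num) (by norm_num)
    refine squeeze_zero (fun k => by simp only [he]; linarith [hjt k]) (fun k => ?_) h1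
    have := (Nat.lt_floor_add_one (t * 2 ^ k)).le
    have h2 : t ≤ (j k + 1) * (2 : ℝ)⁻¹ ^ k := by
      calc t = (t * 2 ^ k) * (2 : ℝ)⁻¹ ^ k := by
            rw [mul_assoc, mul_comm ((2 : ℝ) ^ k), hp, mul_one]
        _ ≤ _ := by gcongr
    simp only [he]
    linarith
  have hle : ∀ k, ph (hf.toLp f) (ec L c t) ≤
      ENNReal.ofReal t * (kc f c) ^ (1 / 2 : ℝ) + ph (hf.toLp f) (ec L c (e k)) := by
    intro k
    have h1 : ec L c t = j k • ec L c ((2 : ℝ)⁻¹ ^ k) + ec L c (e k) := by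
      rw [ec_nsmul, ← ec_add]
      congr 1
      simp only [he]; ring
    rw [h1]
    refine (ph_add _ _ _).trans ?_
    gcongr
    refine (ph_nsmul _ _ _).trans ?_
    calc (j k : ℝ≥0∞) * ph (hf.toLp f) (ec L c ((2 : ℝ)⁻¹ ^ k))
        ≤ (j k : ℝ≥0∞) * (ENNReal.ofReal ((2 : ℝ)⁻¹ ^ k) * (kc f c) ^ (1 / 2 : ℝ)) := by
          gcongr
          exact ph_dyadic f hf c k
      _ = ENNReal.ofReal (j k * (2 : ℝ)⁻¹ ^ k) * (kc f c) ^ (1 / 2 : ℝ) := by
          rw [ENNReal.ofReal_mul (by positivity), ENNReal.ofReal_natCast, mul_assoc]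
      _ ≤ _ := by
          gcongr
          exact hjt k
  have hlim := (ph_tendsto (hf.toLp f) (ec_tendsto (L := L) c he0)).const_add
    (ENNReal.ofReal t * (kc f c) ^ (1 / 2 : ℝ))
  rw [add_zero] at hlim
  exact ge_of_tendsto' hlim hle

lemma ph_line (f : Tor n L → ℂ) (hf : MemLp f 2 (volume : Measure (Tor n L))) (c : Fin n)
    (t : ℝ) : ph (hf.toLp f) (ec L c t) ≤
      ENNReal.ofReal |t| * (kc f c) ^ (1 / 2 : ℝ) := by
  rcases le_total 0 t with h | h
  · rw [abs_of_nonneg h]; exact ph_line0 f hf c t h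
  · rw [abs_of_nonpos h, ← ph_neg, ec_neg]
    exact ph_line0 f hf c (-t) (by linarith)

lemma d1_le (f : Tor n L → ℂ) (hf : MemLp f 2 (volume : Measure (Tor n L))) {r : ℝ}
    (hr : 0 ≤ r) {z : Fin n → ℝ} (hz : z ∈ cube n r) :
    d1 f (pr L z) ≤ n * ENNReal.ofReal (r ^ 2) * ∑ c, kc f c := by
  rw [← ph_sq f hf, pr_eq_sum]
  have h1 : ph (hf.toLp f) (∑ c, ec L c (z c)) ≤ ∑ c, ENNReal.ofReal r * (kc f c) ^ (1 / 2 : ℝ) := by
    refine (ph_sum _ _ _).trans (Finset.sum_le_sum fun c _ => (ph_line f hf c _).trans ?_)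
    gcongr
    exact hz c
  calc ph (hf.toLp f) (∑ c, ec L c (z c)) ^ 2
      ≤ (∑ c, ENNReal.ofReal r * (kc f c) ^ (1 / 2 : ℝ)) ^ 2 := by gcongr
    _ ≤ n * ∑ c, (ENNReal.ofReal r * (kc f c) ^ (1 / 2 : ℝ)) ^ 2 := by
        have := ENNReal.rpow_sum_le_const_mul_sum_rpow (Finset.univ : Finset (Fin n))
          (fun c => ENNReal.ofReal r * (kc f c) ^ (1 / 2 : ℝ)) (p := ((2 : ℕ) : ℝ)) (by norm_num)
        simp only [ENNReal.rpow_natCast] at this
        rw [show (((2 : ℕ) : ℝ) - 1) = 1 by norm_num, ENNReal.rpow_one] at this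
        simpa using this
    _ = n * ENNReal.ofReal (r ^ 2) * ∑ c, kc f c := by
        rw [mul_assoc]
        congr 1
        rw [Finset.mul_sum]
        apply Finset.sum_congr rfl
        intro c _
        rw [mul_pow, ← ENNReal.rpow_natCast ((kc f c) ^ (1 / 2 : ℝ)), ← ENNReal.rpow_mul,
          show (1 / 2 : ℝ) * ((2 : ℕ) : ℝ) = 1 by norm_num, ENNReal.rpow_one]
        rw [ENNReal.ofReal_pow hr]

lemma vol_cube (n : ℕ) {r : ℝ} (hr : 0 ≤ r) :
    volume (cube n r) = ENNReal.ofReal ((2 * r) ^ n) := by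
  have h1 : cube n r = Set.Icc (fun _ => -r) (fun _ => r) := by
    ext z
    simp only [cube, Set.mem_Icc, Pi.le_def, abs_le, Set.mem_ofPred_eq]
    exact forall_and
  rw [h1, Real.volume_Icc_pi]
  simp only [Finset.prod_const, Finset.card_univ, Fintype.card_fin]
  rw [← ENNReal.ofReal_pow (by linarith)]
  congr 2
  ring

end

theorem main : S_TRANS := by
  intro n L μ _ K hμ f hf hfb r hr1 hrL
  have hr : 0 ≤ r := by linarith
  have hfm : MemLp f 2 (volume : Measure (Tor n L)) := by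
    obtain ⟨B, hB⟩ := hfb
    exact MemLp.of_bound hf.aestronglyMeasurable B (Eventually.of_forall hB)
  have h1 : ∫⁻ z in cube n r, d1 f (pr L z) ≤
      ∫⁻ _z in cube n r, n * ENNReal.ofReal (r ^ 2) * ∑ c, kc f c := by
    refine setLIntegral_mono' ?_ fun z hz => d1_le f hfm hr hz
    have h1 : cube n r = Set.Icc (fun _ => -r) (fun _ => r) := by
      ext z
      simp only [cube, Set.mem_Icc, Pi.le_def, abs_le, Set.mem_ofPred_eq]
      exact forall_and
    rw [h1]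
    exact measurableSet_Icc
  refine h1.trans ?_
  rw [setLIntegral_const, vol_cube n hr]
  have h2 : ENNReal.ofReal μ * ∑ c, kc f c ≤ ken1 (ENNReal.ofReal μ) K f := by
    unfold ken1 kc
    exact le_self_add
  refine le_trans ?_ (mul_le_mul_right h2 _)
  rw [← mul_assoc, ← ENNReal.ofReal_mul (by positivity)]
  rw [mul_right_comm]
  gcongr
  rw [← ENNReal.ofReal_natCast, ← ENNReal.ofReal_mul (by positivity),
    ← ENNReal.ofReal_mul (by positivity)]
  apply ENNReal.ofReal_le_ofReal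
  have h3 : r ^ ((n : ℝ) + 2) = r ^ (n + 2) := by
    rw [← Real.rpow_natCast]
    congr 1
    push_cast
    ring
  rw [h3]
  apply le_of_eq
  field_simp
  ring

end Pool.Agent.W753.CB
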